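import Pool.Agent.Helper20.RL.St2

set_option autoImplicit false

open MeasureTheory Set Filter Topology
open scoped ENNReal RealInnerProductSpace

namespace Pool.Agent.Helper28.RL

open Pool.Agent.Helper68.LM (Pl BB Bd Av HL ft fm DQ)
open Pool.Agent.Helper20.RG Pool.Agent.Helper20.RL

/-- numerical estimate -/
private theorem num_LPA (u K : ℕ) (hu : 1 ≤ u) (hK : K ≤ 2 ^ (4 * u)) (r : ℝ) (hr0 : 0 ≤ r)
    (hr : r ≤ 1 - 1 / (2 * ((Mt u : ℝ) + 2))) : r ^ (600 * u ^ 3) * K ≤ 1 := by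
  have hu1 : (1 : ℝ) ≤ u := by exact_mod_cast hu
  have hM : (Mt u : ℝ) = 16 * u * (3 * u + 1) := by
    unfold Mt
    push_cast
    ring
  have hM2 : 2 * ((Mt u : ℝ) + 2) ≤ 132 * (u : ℝ) ^ 2 := by
    rw [hM]
    nlinarith
  have hM0 : 0 < 2 * ((Mt u : ℝ) + 2) := by
    have : (0 : ℝ) ≤ Mt u := Nat.cast_nonneg _
    linarith
  set x : ℝ := 1 / (2 * ((Mt u : ℝ) + 2)) with hx
  have hx1 : 1 / (132 * (u : ℝ) ^ 2) ≤ x := one_div_le_one_div_of_le hM0 hM2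
  have h1 : r ≤ Real.exp (-x) := by
    have := Real.add_one_le_exp (-x)
    linarith
  have h2 : r ^ (600 * u ^ 3) ≤ Real.exp (-(x * (600 * (u : ℝ) ^ 3))) := by
    calc r ^ (600 * u ^ 3) ≤ Real.exp (-x) ^ (600 * u ^ 3) := pow_le_pow_left₀ hr0 h1 _
      _ = Real.exp (-(x * (600 * (u : ℝ) ^ 3))) := by
        rw [← Real.exp_nat_mul]
        congr 1
        push_cast
        ring
  have h3 : (K : ℝ) ≤ Real.exp (4 * u * 0.7) := by
    have h4 : (K : ℝ) ≤ (2 : ℝ) ^ (4 * u) := by exact_mod_cast hK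
    refine h4.trans ?_
    have h5 : (2 : ℝ) ≤ Real.exp 0.7 := by
      rw [← Real.log_le_iff_le_exp (by norm_num)]
      have := Real.log_two_lt_d9
      linarith
    calc (2 : ℝ) ^ (4 * u) ≤ Real.exp 0.7 ^ (4 * u) := pow_le_pow_left₀ (by norm_num) h5 _
      _ = Real.exp (4 * u * 0.7) := by
        rw [← Real.exp_nat_mul]
        congr 1
        push_cast
        ring
  have h6 : 4 * (u : ℝ) * 0.7 ≤ x * (600 * (u : ℝ) ^ 3) := by
    have h7 : 1 / (132 * (u : ℝ) ^ 2) * (600 * (u : ℝ) ^ 3) ≤ x * (600 * (u : ℝ) ^ 3) :=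
      mul_le_mul_of_nonneg_right hx1 (by positivity)
    refine le_trans ?_ h7
    have h8 : 1 / (132 * (u : ℝ) ^ 2) * (600 * (u : ℝ) ^ 3) = 600 / 132 * u := by
      field_simp
    rw [h8]
    linarith
  calc r ^ (600 * u ^ 3) * K ≤ Real.exp (-(x * (600 * (u : ℝ) ^ 3))) * Real.exp (4 * u * 0.7) :=
        mul_le_mul h2 h3 (Nat.cast_nonneg _) (Real.exp_pos _).le
    _ = Real.exp (-(x * (600 * (u : ℝ) ^ 3)) + 4 * u * 0.7) := (Real.exp_add _ _).symm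
    _ ≤ 1 := by
      rw [Real.exp_le_one_iff]
      linarith

theorem hLPA (hLGR : StLGR) (hLAC : StLAC) (hLAN : StLAN) (hLLM : StLLM) (hLUF : StLUF) :
    StLPA := by
  intro F s m u η τ b K hF hu hη hτ hK hlt hle
  obtain ⟨-, hmono, -, -, -, -, hthr⟩ := hLLM u hu
  obtain ⟨-, ht⟩ := hthr η hη
  obtain ⟨hβ1, hβ2, hα⟩ := ht τ (by omega)
  obtain ⟨hα0, hαβ, hr⟩ := hα hτ
  obtain ⟨hU, -⟩ := hLUF F s m u η τ K hu hη (by omega)
  have hβ0 : 0 < thr u η τ := by linarith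
  set U : ℤ → Set Pl := fun k => if 0 ≤ k then UU F s m u η τ k else ∅ with hUdef
  have hUpos : ∀ k : ℤ, 0 ≤ k → U k = UU F s m u η τ k := fun k hk => by
    simp only [hUdef, if_pos hk]
  have hUneg : ∀ k : ℤ, ¬ 0 ≤ k → U k = ∅ := fun k hk => by
    simp only [hUdef, if_neg hk]
  have hcl : ∀ k : ℤ, ∀ y ∈ U k, RQ s (k + lad u τ) (k - (m : ℤ)) y ⊆ U k := by
    intro k y hy
    by_cases hk : 0 ≤ k
    · rw [hUpos k hk] at hy ⊢
      exact (hU k).2 y hy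
    · rw [hUneg k hk] at hy
      exact absurd hy (notMem_empty y)
  have hmeas : ∀ k, MeasurableSet (U k) := fun k => hLGR.2.2.2.2 s _ _ (U k) (hcl k)
  have hIco : (⋃ k ∈ Ico (0 : ℤ) K, U k) = ⋃ k ∈ Ico (0 : ℤ) K, UU F s m u η τ k := by
    refine iUnion₂_congr fun k hk => hUpos k hk.1
  have hIic : (⋃ k ∈ Iic ((K : ℤ) - 1), U k) = ⋃ k ∈ Ico (0 : ℤ) K, U k := by
    ext z
    simp only [mem_iUnion, exists_prop]
    constructor
    · rintro ⟨k, hk, hz⟩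
      have hk0 : 0 ≤ k := by
        by_contra h0
        rw [hUneg k h0] at hz
        exact notMem_empty z hz
      have hk1 : k ≤ (K : ℤ) - 1 := hk
      exact ⟨k, ⟨hk0, by omega⟩, hz⟩
    · rintro ⟨k, hk, hz⟩
      have hk1 : k < (K : ℤ) := hk.2
      exact ⟨k, show k ≤ (K : ℤ) - 1 by omega, hz⟩
  have h1 := hLAC s (lad u τ) (lad u (τ + 1)) m ((K : ℤ) - 1) F (thr u η (τ + 1)) (thr u η τ) U
    hF.1 hα0 hαβ hlt.le (by
      intro k y hy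
      by_cases hk : 0 ≤ k
      · rw [hUpos k hk] at hy
        exact ⟨hy.1, hy.2 hτ⟩
      · rw [hUneg k hk] at hy
        exact absurd hy (notMem_empty y)) hcl (600 * u ^ 3)
  rw [hIic] at h1
  obtain ⟨Δ, hΔ⟩ := Int.eq_ofNat_of_zero_le (sub_nonneg.2 hlt.le)
  rw [hΔ] at h1
  have hΔ1 : 1 ≤ Δ := by omega
  set ρ : ℝ≥0∞ := ENNReal.ofReal ((thr u η (τ + 1) / thr u η τ) ^ (600 * u ^ 3)) with hρ
  have hρK : ρ * K ≤ 1 := by
    have h2 := num_LPA u K hu hK (thr u η (τ + 1) / thr u η τ) (div_nonneg hα0.le hβ0.le) hr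
    rw [hρ]
    have h3 : ((K : ℕ) : ℝ≥0∞) = ENNReal.ofReal (K : ℝ) := (ENNReal.ofReal_natCast K).symm
    rw [h3, ← ENNReal.ofReal_mul (pow_nonneg (div_nonneg hα0.le hβ0.le) _)]
    exact ENNReal.ofReal_le_one.2 h2
  have h4 := hLAN F U Δ K (600 * u ^ 3) ρ hF.1 hmeas hΔ1 h1 hρK
  rw [hIco] at h4
  have h5 : ∑ k ∈ Finset.range K, volume (F ∩ U k) =
      ∑ k ∈ Finset.range K, volume (F ∩ UU F s m u η τ k) :=
    Finset.sum_congr rfl fun k _ => by rw [hUpos k (Int.natCast_nonneg k)]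
  rw [h5] at h4
  refine h4.trans (mul_le_mul_left ?_ _)
  have h6 : ((600 * u ^ 3 * Δ + 1 : ℕ) : ℝ≥0∞) =
      ENNReal.ofReal ((600 * u ^ 3 * Δ + 1 : ℕ) : ℝ) := (ENNReal.ofReal_natCast _).symm
  rw [h6]
  refine ENNReal.ofReal_le_ofReal ?_
  have h7 : (Δ : ℝ) ≤ 1025 * (u : ℝ) ^ 2 * 2 ^ b := by
    have h8 : (Δ : ℤ) ≤ 1025 * (u : ℤ) ^ 2 * 2 ^ b := by
      rw [← hΔ]
      exact hle
    exact_mod_cast h8
  have hu1 : (1 : ℝ) ≤ u := by exact_mod_cast hu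
  have hu5 : (1 : ℝ) ≤ (u : ℝ) ^ 5 := one_le_pow₀ hu1
  have hb : (1 : ℝ) ≤ (2 : ℝ) ^ b := one_le_pow₀ (by norm_num)
  have h9 : (1 : ℝ) ≤ (u : ℝ) ^ 5 * 2 ^ b := by nlinarith
  push_cast
  have h10 : 600 * (u : ℝ) ^ 3 * Δ ≤ 600 * (u : ℝ) ^ 3 * (1025 * (u : ℝ) ^ 2 * 2 ^ b) :=
    mul_le_mul_of_nonneg_left h7 (by positivity)
  nlinarith

end Pool.Agent.Helper28.RL
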